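import Pool.Agent.WG59.Cl1

/-!
Note 2486 of MP_e6151a_ag, abstract part.  `K₁ ∪ K₂` is a circuit, `K₁ + a` and `K₂ + a` are circuits (`TwoC`); to every
`x ∈ K₁ ∪ K₂` belong a block `P x` (empty, or containing `x`; different blocks are disjoint; `a` is not in `P x`) and a set
`N x` of partners in the other colour which spans `a` modulo `P x` (`Blk`).  If no `g`, `h` are partners of each other and the
blocks satisfy the counting inequality `cnt`, then we have a contradiction.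
-/

set_option autoImplicit false

namespace Pool.Agent.DP91

open Finset Pool.Agent.DT3 Pool.Agent.CF98

variable {α : Type*} [DecidableEq α] {r : Finset α → ℕ} {K₁ K₂ T U R A B D : Finset α} {a : α}
  {P N : α → Finset α}

/-- Removing elements spanned by the rest. -/
theorem er (h : RankFn r) {x : α} {Y Y' : Finset α} (hx : r (insert x Y) = r Y) (hY : Y ⊆ Y'.erase x)
    (hxY : x ∈ Y') : r (Y'.erase x) = r Y' := by
  have h1 := h.mono_insert hx hY
  rw [insert_erase hxY] at h1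
  exact h1.symm

theorem dropn (h : RankFn r) (hR : R ⊆ U \ T) (hr : r (T ∪ U) ≤ r ((T ∪ U) \ R)) :
    r (T ∪ U) + R.card ≤ r T + (U \ T).card := by
  have h1 : (T ∪ U) \ R ⊆ T ∪ ((U \ T) \ R) := by
    intro x hx
    rw [mem_sdiff, mem_union] at hx
    rw [mem_union, mem_sdiff, mem_sdiff]
    by_cases hT : x ∈ T
    · exact Or.inl hT
    · exact Or.inr ⟨⟨hx.1.resolve_left hT, hT⟩, hx.2⟩
  have h2 := h.mono _ _ h1
  have h3 := rk_le_union_card h T ((U \ T) \ R)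
  have h4 := card_sdiff_add_card_eq_card hR
  omega

/-- Two circuits through `a` whose union minus `a` is a circuit. -/
structure TwoC (r : Finset α → ℕ) (K₁ K₂ : Finset α) (a : α) : Prop where
  dj : Disjoint K₁ K₂
  a1 : a ∉ K₁
  a2 : a ∉ K₂
  n1 : K₁.Nonempty
  n2 : K₂.Nonempty
  s1 : r (insert a K₁) = r K₁
  s2 : r (insert a K₂) = r K₂
  c1 : ∀ k ∈ K₁, r (insert k (insert a (K₁.erase k))) = r (insert a (K₁.erase k))
  c2 : ∀ k ∈ K₂, r (insert k (insert a (K₂.erase k))) = r (insert a (K₂.erase k))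
  e1 : ∀ k ∈ K₁, r (insert a (K₁.erase k)) ≠ r (K₁.erase k)
  e2 : ∀ k ∈ K₂, r (insert a (K₂.erase k)) ≠ r (K₂.erase k)
  cc : r (K₁ ∪ K₂) + 1 = (K₁ ∪ K₂).card
  ci : ∀ D ⊆ K₁ ∪ K₂, D ≠ K₁ ∪ K₂ → r D = D.card

theorem TwoC.symm (h : TwoC r K₁ K₂ a) : TwoC r K₂ K₁ a :=
  ⟨h.dj.symm, h.a2, h.a1, h.n2, h.n1, h.s2, h.s1, h.c2, h.c1, h.e2, h.e1,
    by rw [union_comm]; exact h.cc, by rw [union_comm]; exact h.ci⟩

/-- The blocks and the partners. -/
structure Blk (r : Finset α → ℕ) (K₁ K₂ : Finset α) (a : α) (P N : α → Finset α) : Prop where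
  aP : ∀ x ∈ K₁ ∪ K₂, r (insert a (P x)) ≠ r (P x)
  NP : ∀ x ∈ K₁ ∪ K₂, ∀ y ∈ N x, y ∉ P x
  sp : ∀ x ∈ K₁ ∪ K₂, r (insert a (P x ∪ N x)) = r (P x ∪ N x)
  N1 : ∀ x ∈ K₁, N x ⊆ K₂
  N2 : ∀ x ∈ K₂, N x ⊆ K₁
  no : ∀ g ∈ K₁, ∀ h ∈ K₂, h ∈ N g → g ∉ N h
  self : ∀ x ∈ K₁ ∪ K₂, P x ≠ ∅ → x ∈ P x
  eqv : ∀ x ∈ K₁ ∪ K₂, ∀ y ∈ K₁ ∪ K₂, y ∈ P x → P y = P x
  dsj : ∀ x ∈ K₁ ∪ K₂, ∀ y ∈ K₁ ∪ K₂, P x ≠ P y → Disjoint (P x) (P y)
  cnt : ∀ s : Finset (Finset α), (∀ T ∈ s, ∃ x ∈ K₁ ∪ K₂, P x = T ∧ P x ≠ ∅) →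
    ∑ T ∈ s, (2 * (r T : ℤ) - 1) + 2 ≤ 2 * (r (insert a (s.sup id)) : ℤ)

theorem Blk.symm (h : Blk r K₁ K₂ a P N) : Blk r K₂ K₁ a P N where
  aP := by rw [union_comm]; exact h.aP
  NP := by rw [union_comm]; exact h.NP
  sp := by rw [union_comm]; exact h.sp
  N1 := h.N2
  N2 := h.N1
  no := fun g hg k hk h1 h2 => h.no k hk g hg h2 h1
  self := by rw [union_comm]; exact h.self
  eqv := by rw [union_comm]; exact h.eqv
  dsj := by rw [union_comm]; exact h.dsj
  cnt := by rw [union_comm]; exact h.cnt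

theorem TwoC.notsub (h : TwoC r K₁ K₂ a) (hr : RankFn r) (ha : r (insert a T) ≠ r T) : ∃ k ∈ K₂, k ∉ T := by
  by_contra hn
  push Not at hn
  exact ha (hr.mono_insert h.s2 hn)

/-- If the block is empty then the set of partners is the whole other colour. -/
theorem full (h : TwoC r K₁ K₂ a) (hB : Blk r K₁ K₂ a P N) (hr : RankFn r) {g : α} (hg : g ∈ K₁)
    (hP : P g = ∅) : N g = K₂ := by
  refine Subset.antisymm (hB.N1 g hg) ?_
  intro k hk
  by_contra hkN
  have h1 := hB.sp g (mem_union_left _ hg)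
  rw [hP, empty_union] at h1
  refine h.e2 k hk (hr.mono_insert h1 ?_)
  intro x hx
  exact mem_erase.2 ⟨fun e => hkN (e ▸ hx), hB.N1 g hg hx⟩

/-- Two redundant elements: `k ∈ K₂` outside the spanning set `S ∋ a`-spanning, then `a`. -/
theorem two (h : TwoC r K₁ K₂ a) (hr : RankFn r) {S : Finset α} {k : α} (hU : insert a K₂ ⊆ U)
    (hk : k ∈ K₂) (hkT : k ∉ T) (haT : a ∉ T) (hS : r (insert a (T ∪ S)) = r (T ∪ S)) (hSU : S ⊆ U)
    (hkS : k ∉ S) (haS : a ∉ S) : r (T ∪ U) + 2 ≤ r T + (U \ T).card := by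
  have haU : a ∈ U := hU (mem_insert_self a K₂)
  have hkU : k ∈ U := hU (mem_insert_of_mem hk)
  have hak : k ≠ a := fun e => h.a2 (e ▸ hk)
  have h1 : r ((T ∪ U).erase k) = r (T ∪ U) := by
    refine er hr (h.c2 k hk) ?_ (mem_union_right _ hkU)
    intro x hx
    rcases mem_insert.1 hx with rfl | hx
    · exact mem_erase.2 ⟨hak.symm, mem_union_right _ haU⟩
    · exact mem_erase.2 ⟨(mem_erase.1 hx).1, mem_union_right _ (hU (mem_insert_of_mem (mem_erase.1 hx).2))⟩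
  have h2 : r (((T ∪ U).erase k).erase a) = r ((T ∪ U).erase k) := by
    refine er hr hS ?_ (mem_erase.2 ⟨hak.symm, mem_union_right _ haU⟩)
    intro x hx
    rw [mem_erase, mem_erase]
    rcases mem_union.1 hx with hx | hx
    · exact ⟨fun e => haT (e ▸ hx), fun e => hkT (e ▸ hx), mem_union_left _ hx⟩
    · exact ⟨fun e => haS (e ▸ hx), fun e => hkS (e ▸ hx), mem_union_right _ (hSU hx)⟩
  have h3 : ({a, k} : Finset α) ⊆ U \ T := by
    intro x hx
    rcases mem_insert.1 hx with rfl | hx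
    · exact mem_sdiff.2 ⟨haU, haT⟩
    · rw [mem_singleton.1 hx]
      exact mem_sdiff.2 ⟨hkU, hkT⟩
  have h4 : (T ∪ U) \ {a, k} = ((T ∪ U).erase k).erase a := by
    ext x
    simp only [mem_sdiff, mem_insert, mem_singleton, mem_erase, ne_eq]
    tauto
  have h5 := dropn (R := {a, k}) hr h3 (by rw [h4, h2, h1])
  rwa [card_pair hak.symm] at h5

/-- Three redundant elements. -/
theorem three (h : TwoC r K₁ K₂ a) (hr : RankFn r) {S : Finset α} {k k' : α} (hU : insert a (K₁ ∪ K₂) ⊆ U)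
    (hk : k ∈ K₂) (hkT : k ∉ T) (hk' : k' ∈ K₁) (hkT' : k' ∉ T) (haT : a ∉ T)
    (hS : r (insert a (T ∪ S)) = r (T ∪ S)) (hSU : S ⊆ K₂)
    (hkS : k ∉ S) : r (T ∪ U) + 3 ≤ r T + (U \ T).card := by
  have haU : a ∈ U := hU (mem_insert_self a _)
  have h1U : K₁ ⊆ U := fun x hx => hU (mem_insert_of_mem (mem_union_left _ hx))
  have h2U : K₂ ⊆ U := fun x hx => hU (mem_insert_of_mem (mem_union_right _ hx))
  have hak : k ≠ a := fun e => h.a2 (e ▸ hk)
  have hak' : k' ≠ a := fun e => h.a1 (e ▸ hk')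
  have hkk : k' ≠ k := fun e => disjoint_left.1 h.dj (e ▸ hk') hk
  have h0 : r ((T ∪ U).erase k') = r (T ∪ U) := by
    refine er hr (h.c1 k' hk') ?_ (mem_union_right _ (h1U hk'))
    intro x hx
    rcases mem_insert.1 hx with rfl | hx
    · exact mem_erase.2 ⟨hak'.symm, mem_union_right _ haU⟩
    · exact mem_erase.2 ⟨(mem_erase.1 hx).1, mem_union_right _ (h1U (mem_erase.1 hx).2)⟩
  have h1 : r (((T ∪ U).erase k').erase k) = r ((T ∪ U).erase k') := by
    refine er hr (h.c2 k hk) ?_ (mem_erase.2 ⟨hkk.symm, mem_union_right _ (h2U hk)⟩)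
    intro x hx
    rw [mem_erase, mem_erase]
    rcases mem_insert.1 hx with rfl | hx
    · exact ⟨hak.symm, hak'.symm, mem_union_right _ haU⟩
    · exact ⟨(mem_erase.1 hx).1, fun e => disjoint_left.1 h.dj (e ▸ hk') (mem_erase.1 hx).2,
        mem_union_right _ (h2U (mem_erase.1 hx).2)⟩
  have h2 : r ((((T ∪ U).erase k').erase k).erase a) = r (((T ∪ U).erase k').erase k) := by
    refine er hr hS ?_ (mem_erase.2 ⟨hak.symm, mem_erase.2 ⟨hak'.symm, mem_union_right _ haU⟩⟩)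
    intro x hx
    rw [mem_erase, mem_erase, mem_erase]
    rcases mem_union.1 hx with hx | hx
    · exact ⟨fun e => haT (e ▸ hx), fun e => hkT (e ▸ hx), fun e => hkT' (e ▸ hx), mem_union_left _ hx⟩
    · exact ⟨fun e => h.a2 (e ▸ hSU hx), fun e => hkS (e ▸ hx),
        fun e => disjoint_left.1 h.dj (e ▸ hk') (hSU hx), mem_union_right _ (h2U (hSU hx))⟩
  have h3 : ({a, k, k'} : Finset α) ⊆ U \ T := by
    intro x hx
    simp only [mem_insert, mem_singleton] at hx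
    rcases hx with rfl | rfl | rfl
    · exact mem_sdiff.2 ⟨haU, haT⟩
    · exact mem_sdiff.2 ⟨h2U hk, hkT⟩
    · exact mem_sdiff.2 ⟨h1U hk', hkT'⟩
  have h4 : (T ∪ U) \ {a, k, k'} = (((T ∪ U).erase k').erase k).erase a := by
    ext x
    simp only [mem_sdiff, mem_insert, mem_singleton, mem_erase, ne_eq]
    tauto
  have h5 := dropn (R := {a, k, k'}) hr h3 (by rw [h4, h2, h1, h0])
  have h6 : ({a, k, k'} : Finset α).card = 3 := card_eq_three.2 ⟨a, k, k', hak.symm, hak'.symm, hkk.symm, rfl⟩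
  rwa [h6] at h5

/-- Submodularity for several sets over `U`. -/
theorem sub_sup (h : RankFn r) (U : Finset α) (s : Finset (Finset α)) :
    (r (s.sup id ∪ U) : ℤ) ≤ r U + ∑ T ∈ s, ((r (T ∪ U) : ℤ) - r U) := by
  induction s using Finset.induction_on with
  | empty => simp
  | insert T s hT ih =>
    rw [sup_insert, sum_insert hT]
    have h2 := h.submod (s.sup id ∪ U) (T ∪ U)
    have h3 := h.mono U ((s.sup id ∪ U) ∩ (T ∪ U)) (subset_inter subset_union_right subset_union_right)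
    have h4 : id T ⊔ s.sup id ∪ U = (s.sup id ∪ U) ∪ (T ∪ U) := by
      ext z
      simp only [mem_union, sup_eq_union, id]
      tauto
    rw [show (id T ⊔ s.sup id) ∪ U = (s.sup id ∪ U) ∪ (T ∪ U) from h4]
    omega

theorem card_dsj (U : Finset α) (s : Finset (Finset α)) (hd : ∀ T ∈ s, ∀ T' ∈ s, T ≠ T' → Disjoint T T') :
    ((U ∩ s.sup id).card : ℤ) = ∑ T ∈ s, ((U ∩ T).card : ℤ) := by
  induction s using Finset.induction_on with
  | empty => simp
  | insert T s hT ih =>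
    have h1 := ih fun Y hY Y' hY' => hd Y (mem_insert_of_mem hY) Y' (mem_insert_of_mem hY')
    rw [sup_insert, sum_insert hT, ← h1]
    have h2 : U ∩ (id T ⊔ s.sup id) = (U ∩ T) ∪ (U ∩ s.sup id) := by
      ext z
      simp only [mem_union, mem_inter, sup_eq_union, id]
      tauto
    rw [h2, card_union_of_disjoint]
    · push_cast; ring
    · rw [disjoint_left]
      intro z hz hz'
      rw [mem_inter] at hz hz'
      obtain ⟨Y, hY, hzY⟩ := mem_sup.1 hz'.2
      have hne : T ≠ Y := fun e => hT (e ▸ hY)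
      exact disjoint_left.1 (hd T (mem_insert_self T s) Y (mem_insert_of_mem hY) hne) hz.2 hzY

end Pool.Agent.DP91
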