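import Pool.Agent.DP91.Core

/-!
Note 2486 of MP_e6151a_ag, abstract part: the contradiction.
-/

set_option autoImplicit false

namespace Pool.Agent.DP91

open Finset Pool.Agent.DT3 Pool.Agent.CF98

variable {α : Type*} [DecidableEq α] {r : Finset α → ℕ} {K₁ K₂ T U R A B D : Finset α} {a : α}
  {P N : α → Finset α}

theorem count (hr : RankFn r) (hB : Blk r K₁ K₂ a P N) {n₀ : ℤ} (s : Finset (Finset α))
    (hs : ∀ T ∈ s, ∃ x ∈ K₁ ∪ K₂, P x = T ∧ P x ≠ ∅) (haU : a ∈ U) (hU : U.erase a ⊆ s.sup id)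
    (hn : (r U : ℤ) = U.card - n₀) :
    2 * ∑ T ∈ s, ((r T : ℤ) + (U \ T).card - r (T ∪ U)) ≤ s.card + 2 * ((s.card : ℤ) - 1) * n₀ := by
  have haT : ∀ T ∈ s, a ∉ T := by
    intro T hT haT
    obtain ⟨x, hx, rfl, -⟩ := hs T hT
    exact hB.aP x hx (by rw [insert_eq_of_mem haT])
  have hasup : a ∉ s.sup id := by
    intro h
    obtain ⟨T, hT, h1⟩ := mem_sup.1 h
    exact haT T hT h1
  have h1 := sub_sup hr U s
  have e1 : insert a (s.sup id) = s.sup id ∪ U := by
    ext z
    rw [mem_insert, mem_union]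
    constructor
    · rintro (rfl | h)
      · exact Or.inr haU
      · exact Or.inl h
    · rintro (h | h)
      · exact Or.inr h
      · by_cases hz : z = a
        · exact Or.inl hz
        · exact Or.inr (hU (mem_erase.2 ⟨hz, h⟩))
  have h2 := hB.cnt s hs
  rw [e1] at h2
  have h3 := card_dsj U s (by
    intro T hT T' hT' hne
    obtain ⟨x, hx, rfl, -⟩ := hs T hT
    obtain ⟨y, hy, rfl, -⟩ := hs T' hT'
    exact hB.dsj x hx y hy hne)
  have e2 : U ∩ s.sup id = U.erase a := by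
    ext z
    rw [mem_inter, mem_erase]
    constructor
    · rintro ⟨h4, h5⟩
      exact ⟨fun e => hasup (e ▸ h5), h4⟩
    · rintro ⟨h4, h5⟩
      exact ⟨h5, hU (mem_erase.2 ⟨h4, h5⟩)⟩
  have hpos : 0 < U.card := card_pos.2 ⟨a, haU⟩
  rw [e2, card_erase_of_mem haU] at h3
  have h4 : ∀ T ∈ s, (r T : ℤ) + (U \ T).card - r (T ∪ U) =
      ((U.card : ℤ) + (r T : ℤ)) - ((U ∩ T).card : ℤ) - ((r (T ∪ U) : ℤ) - r U) - r U := by
    intro T _
    have h5 := card_sdiff_add_card_inter U T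
    omega
  rw [sum_congr rfl h4]
  simp only [sum_sub_distrib, sum_add_distrib, sum_const, nsmul_eq_mul] at h1 h2 h3 ⊢
  rw [← h3]
  simp only [sum_sub_distrib, sum_const, nsmul_eq_mul, ← mul_sum] at h1 h2 ⊢
  push_cast [Nat.cast_sub (Nat.succ_le_of_lt hpos)]
  rw [hn] at h1 ⊢
  nlinarith [h1, h2]

theorem aux (hr : RankFn r) (h : TwoC r K₁ K₂ a) (hB : Blk r K₁ K₂ a P N) (hA : ∀ x ∈ K₂, N x ≠ K₁) :
    False := by
  classical
  set D₁ : Finset α := K₁.filter fun g => N g ≠ K₂ with hD₁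
  have hD₁K : D₁ ⊆ K₁ := filter_subset _ _
  have hPne : ∀ x ∈ D₁ ∪ K₂, P x ≠ ∅ := by
    intro x hx h0
    rcases mem_union.1 hx with hx | hx
    · exact (mem_filter.1 hx).2 (full h hB hr (hD₁K hx) h0)
    · exact hA x hx (full h.symm hB.symm hr hx h0)
  have hDK : D₁ ∪ K₂ ⊆ K₁ ∪ K₂ := union_subset_union hD₁K (Subset.refl _)
  set U : Finset α := insert a (D₁ ∪ K₂) with hU
  set s : Finset (Finset α) := (D₁ ∪ K₂).image P with hs
  have haD : a ∉ D₁ ∪ K₂ := by
    rw [mem_union]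
    rintro (h1 | h1)
    · exact h.a1 (hD₁K h1)
    · exact h.a2 h1
  have hUe : U.erase a = D₁ ∪ K₂ := erase_insert haD
  have hsP : ∀ T ∈ s, ∃ x ∈ D₁ ∪ K₂, P x = T ∧ x ∈ T := by
    intro T hT
    obtain ⟨x, hx, rfl⟩ := mem_image.1 hT
    exact ⟨x, hx, rfl, hB.self x (hDK hx) (hPne x hx)⟩
  have hs' : ∀ T ∈ s, ∃ x ∈ K₁ ∪ K₂, P x = T ∧ P x ≠ ∅ := by
    intro T hT
    obtain ⟨x, hx, rfl, -⟩ := hsP T hT
    exact ⟨x, hDK hx, rfl, hPne x hx⟩
  have hsup : U.erase a ⊆ s.sup id := by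
    rw [hUe]
    intro x hx
    exact mem_sup.2 ⟨P x, mem_image_of_mem P hx, hB.self x (hDK hx) (hPne x hx)⟩
  have haU : a ∈ U := mem_insert_self _ _
  have hK₂U : insert a K₂ ⊆ U := insert_subset_insert a subset_union_right
  have hrU : r U = r (D₁ ∪ K₂) := hr.mono_insert h.s2 subset_union_right
  have hUc : U.card = (D₁ ∪ K₂).card + 1 := card_insert_of_notMem haD
  have haT : ∀ T ∈ s, a ∉ T ∧ r (insert a T) ≠ r T := by
    intro T hT
    obtain ⟨x, hx, rfl, -⟩ := hs' T hT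
    have h1 := hB.aP x hx
    exact ⟨fun h2 => h1 (by rw [insert_eq_of_mem h2]), h1⟩
  by_cases hA1 : ∃ g ∈ K₁, N g = K₂
  · -- the first case
    obtain ⟨g₀, hg₀, hNg₀⟩ := hA1
    have hne : D₁ ∪ K₂ ≠ K₁ ∪ K₂ := by
      intro he
      have h1 : g₀ ∈ D₁ ∪ K₂ := he ▸ mem_union_left _ hg₀
      rcases mem_union.1 h1 with h1 | h1
      · exact (mem_filter.1 h1).2 hNg₀
      · exact disjoint_left.1 h.dj hg₀ h1
    have hrD := h.ci _ hDK hne
    have hc := count (n₀ := 1) hr hB s hs' haU hsup (by omega)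
    have h2 : ∀ T ∈ s, (2 : ℤ) ≤ (r T : ℤ) + (U \ T).card - r (T ∪ U) := by
      intro T hT
      obtain ⟨x, hx, hxT, hxm⟩ := hsP T hT
      have haT' := haT T hT
      have key : r (T ∪ U) + 2 ≤ r T + (U \ T).card := by
        by_cases hh : ∃ y ∈ K₂, y ∈ T
        · obtain ⟨y, hy, hyT⟩ := hh
          have hPy : P y = T := by
            rw [← hxT]
            exact hB.eqv x (hDK hx) y (mem_union_right _ hy) (hxT ▸ hyT)
          obtain ⟨k, hk, hkT⟩ := h.notsub hr haT'.2
          have hS := hB.sp y (mem_union_right _ hy)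
          rw [hPy] at hS
          have hNy := hB.N2 y hy
          have hNU : N y ⊆ U := by
            intro z hz
            refine mem_insert_of_mem (mem_union_left _ (mem_filter.2 ⟨hNy hz, fun he => ?_⟩))
            exact hB.no z (hNy hz) y hy (he ▸ hy) hz
          exact two h hr hK₂U hk hkT haT'.1 hS hNU (fun h3 => disjoint_left.1 h.dj (hNy h3) hk)
            (fun h3 => h.a1 (hNy h3))
        · push Not at hh
          have hxD : x ∈ D₁ := by
            rcases mem_union.1 hx with h3 | h3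
            · exact h3
            · exact absurd hxm (hh x h3)
          have hNx := hB.N1 x (hD₁K hxD)
          obtain ⟨k, hk, hkN⟩ : ∃ k ∈ K₂, k ∉ N x := by
            by_contra hcon
            push Not at hcon
            exact (mem_filter.1 hxD).2 (Subset.antisymm hNx hcon)
          have hS := hB.sp x (hDK hx)
          rw [hxT] at hS
          exact two h hr hK₂U hk (hh k hk) haT'.1 hS
            (hNx.trans ((subset_insert a K₂).trans hK₂U)) hkN (fun h3 => h.a2 (hNx h3))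
      omega
    have h3 := card_nsmul_le_sum s _ (2 : ℤ) h2
    rw [nsmul_eq_mul] at h3
    have h4 : (0 : ℤ) ≤ s.card := Int.natCast_nonneg _
    linarith
  · -- the second case
    push Not at hA1
    have hDe : D₁ = K₁ := by
      refine Subset.antisymm hD₁K fun x hx => mem_filter.2 ⟨hx, hA1 x hx⟩
    rw [hDe] at hUe hrU hUc hsP hPne hDK haD
    have hUe' : U = insert a (K₁ ∪ K₂) := by rw [hU, hDe]
    have hUsub : insert a (K₁ ∪ K₂) ⊆ U := hUe' ▸ Subset.refl _
    have hcc := h.cc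
    have hc := count (n₀ := 2) hr hB s hs' haU hsup (by omega)
    have hfull : ∀ T ∈ s, (r T : ℤ) + (U \ T).card - r (T ∪ U) < 3 →
        (∃ g ∈ K₁, g ∈ T ∧ N g = K₂ \ T) ∧ (∃ k ∈ K₂, k ∈ T ∧ N k = K₁ \ T) := by
      intro T hT hlt
      obtain ⟨x, hx, hxT, hxm⟩ := hsP T hT
      have haT' := haT T hT
      obtain ⟨k₂, hk₂, hk₂T⟩ := h.notsub hr haT'.2
      obtain ⟨k₁, hk₁, hk₁T⟩ := h.symm.notsub hr haT'.2
      have F1 : ∀ g ∈ K₁, g ∈ T → N g = K₂ \ T := by
        intro g hg hgT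
        have hPg : P g = T := by
          rw [← hxT]
          exact hB.eqv x hx g (mem_union_left _ hg) (hxT ▸ hgT)
        have hS := hB.sp g (mem_union_left _ hg)
        rw [hPg] at hS
        refine Subset.antisymm ?_ ?_
        · intro y hy
          exact mem_sdiff.2 ⟨hB.N1 g hg hy, hPg ▸ hB.NP g (mem_union_left _ hg) y hy⟩
        · intro k hk
          rw [mem_sdiff] at hk
          by_contra hkN
          have h5 := three h hr hUsub hk.1 hk.2 hk₁ hk₁T haT'.1 hS (hB.N1 g hg) hkN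
          omega
      have F2 : ∀ g ∈ K₂, g ∈ T → N g = K₁ \ T := by
        intro g hg hgT
        have hPg : P g = T := by
          rw [← hxT]
          exact hB.eqv x hx g (mem_union_right _ hg) (hxT ▸ hgT)
        have hS := hB.sp g (mem_union_right _ hg)
        rw [hPg] at hS
        refine Subset.antisymm ?_ ?_
        · intro y hy
          exact mem_sdiff.2 ⟨hB.N2 g hg hy, hPg ▸ hB.NP g (mem_union_right _ hg) y hy⟩
        · intro k hk
          rw [mem_sdiff] at hk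
          by_contra hkN
          have h5 := three (U := U) h.symm hr (by rw [union_comm K₂ K₁]; exact hUsub) hk.1 hk.2 hk₂ hk₂T haT'.1 hS
            (hB.N2 g hg) hkN
          omega
      rcases mem_union.1 hx with hx1 | hx1
      · refine ⟨⟨x, hx1, hxm, F1 x hx1 hxm⟩, ?_⟩
        obtain ⟨k, hk, hkT⟩ : ∃ k ∈ K₂, k ∈ T := by
          by_contra hcon
          push Not at hcon
          refine hA1 x hx1 ?_
          rw [F1 x hx1 hxm]
          exact sdiff_eq_self_of_disjoint (disjoint_left.2 hcon)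
        exact ⟨k, hk, hkT, F2 k hk hkT⟩
      · refine ⟨?_, ⟨x, hx1, hxm, F2 x hx1 hxm⟩⟩
        obtain ⟨k, hk, hkT⟩ : ∃ k ∈ K₁, k ∈ T := by
          by_contra hcon
          push Not at hcon
          refine hA x hx1 ?_
          rw [F2 x hx1 hxm]
          exact sdiff_eq_self_of_disjoint (disjoint_left.2 hcon)
        exact ⟨k, hk, hkT, F1 k hk hkT⟩
    have h2 : ∀ T ∈ s, (2 : ℤ) ≤ (r T : ℤ) + (U \ T).card - r (T ∪ U) := by
      intro T hT
      have haT' := haT T hT
      obtain ⟨k₂, hk₂, hk₂T⟩ := h.notsub hr haT'.2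
      have key : r (T ∪ U) + 2 ≤ r T + (U \ T).card :=
        two h hr hK₂U hk₂ hk₂T haT'.1 (S := K₁) (hr.mono_insert h.s1 subset_union_right)
          (subset_union_left.trans ((subset_insert _ _).trans hUsub))
          (fun h3 => disjoint_left.1 h.dj h3 hk₂) h.a1
      omega
    set s₂ : Finset (Finset α) := s.filter fun T => (r T : ℤ) + (U \ T).card - r (T ∪ U) < 3 with hs₂
    have h3 : ∀ T ∈ s, (3 : ℤ) - (if (r T : ℤ) + (U \ T).card - r (T ∪ U) < 3 then 1 else 0) ≤
        (r T : ℤ) + (U \ T).card - r (T ∪ U) := by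
      intro T hT
      have h4 := h2 T hT
      split_ifs with h5
      · linarith
      · linarith
    have h4 := sum_le_sum h3
    rw [sum_sub_distrib, sum_const, nsmul_eq_mul, ← sum_filter, ← hs₂, sum_const, nsmul_eq_mul] at h4
    have h5 : (0 : ℤ) ≤ s.card := Int.natCast_nonneg _
    have h6 : 1 < s₂.card := by
      have : (1 : ℤ) < s₂.card := by linarith
      exact_mod_cast this
    obtain ⟨T, hT, T', hT', hne⟩ := one_lt_card.1 h6
    rw [hs₂, mem_filter] at hT hT'
    obtain ⟨⟨g, hg, hgT, hNg⟩, -⟩ := hfull T hT.1 hT.2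
    obtain ⟨-, ⟨k, hk, hkT, hNk⟩⟩ := hfull T' hT'.1 hT'.2
    obtain ⟨x, hx, hxT, -⟩ := hs' T hT.1
    obtain ⟨y, hy, hyT, -⟩ := hs' T' hT'.1
    have hdj : Disjoint T T' := by
      rw [← hxT, ← hyT]
      exact hB.dsj x hx y hy (by rw [hxT, hyT]; exact hne)
    refine hB.no g hg k hk ?_ ?_
    · rw [hNg]
      exact mem_sdiff.2 ⟨hk, fun h7 => disjoint_left.1 hdj h7 hkT⟩
    · rw [hNk]
      exact mem_sdiff.2 ⟨hg, fun h7 => disjoint_left.1 hdj hgT h7⟩

/-- The abstract form of note 2486. -/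
theorem core (hr : RankFn r) (h : TwoC r K₁ K₂ a) (hB : Blk r K₁ K₂ a P N) : False := by
  by_cases h2 : ∃ x ∈ K₂, N x = K₁
  · obtain ⟨k, hk, hNk⟩ := h2
    refine aux hr h.symm hB.symm fun g hg hNg => ?_
    exact hB.no g hg k hk (hNg ▸ hk) (hNk ▸ hg)
  · push Not at h2
    exact aux hr h hB h2

end Pool.Agent.DP91
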