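import Pool.Agent.DP91.CoreB

/-!
Note 2486 of MP_e6151a_ag: let `Z` be a set of `f + 1` elements whose largest tight set is contained in a double point `{a, a'}`
outside `Z`.  Then all good bases inside `Z` are in one class (`dp`).
-/

set_option autoImplicit false

namespace Pool.Agent.DP91

open Finset Pool.Agent.DT3 Pool.Agent.CF98 Pool.Agent.WT59 Pool.Agent.WG59

variable {α : Type*} [DecidableEq α] {r : Finset α → ℕ} {E X Y Z W G b b' : Finset α} {f : ℕ} {a a' x y : α}
  {Q : Finset α → Prop}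

theorem card_er (hxW : x ∈ W) :
    (X \ W.erase x).card = (X \ W).card + (if x ∈ X then 1 else 0) := by
  split_ifs with hx
  · have h1 : X \ W.erase x = insert x (X \ W) := by
      ext z
      simp only [mem_sdiff, mem_erase, mem_insert, ne_eq]
      constructor
      · rintro ⟨h1, h2⟩
        by_cases h3 : z = x
        · exact Or.inl h3
        · exact Or.inr ⟨h1, fun h4 => h2 ⟨h3, h4⟩⟩
      · rintro (h1 | h1)
        · subst h1; exact ⟨hx, fun h => h.1 rfl⟩
        · exact ⟨h1.1, fun h => h1.2 h.2⟩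
    rw [h1, card_insert_of_notMem]
    exact fun h => (mem_sdiff.1 h).2 hxW
  · have h1 : X \ W.erase x = X \ W := by
      ext z
      simp only [mem_sdiff, mem_erase, ne_eq]
      constructor
      · rintro ⟨h1, h2⟩
        refine ⟨h1, fun h4 => h2 ⟨fun h3 => hx (h3 ▸ h1), h4⟩⟩
      · rintro ⟨h1, h2⟩
        exact ⟨h1, fun h => h2 h.2⟩
    rw [h1, add_zero]

/-- The largest tight set of `b + x` is the largest tight set of `b` without `x`. -/
theorem tg_ff (hE : Env r E f) (hb : Gd r E f b) (hx : x ∈ E \ b) :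
    TG r E b x (FF r r E (insert x b)) := by
  have hr := hE.rk
  have hx' := mem_sdiff.1 hx
  have hZok : Ok r r E (insert x b) := ok_sub (gd_ok hE hb) (subset_insert x b)
  have hGt : Ti r r (insert x b) (FF r r E (insert x b)) := FF_ti hr hr hZok
  have hxG : x ∉ FF r r E (insert x b) :=
    ti_disj (gd_ok hE hb) (subset_insert x b) FF_sub hGt x (mem_insert_self x b) hx'.2
  have hsame : ∀ Y : Finset α, x ∉ Y → Y \ b = Y \ insert x b := by
    intro Y hY
    ext z
    rw [mem_sdiff, mem_sdiff, mem_insert]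
    constructor
    · rintro ⟨h1, h2⟩
      exact ⟨h1, fun h3 => h3.elim (fun h4 => hY (h4 ▸ h1)) h2⟩
    · rintro ⟨h1, h2⟩
      exact ⟨h1, fun h3 => h2 (Or.inr h3)⟩
  refine ⟨FF_sub, ?_, hxG, ?_⟩
  · rw [← ti_sg]
    unfold Ti at hGt ⊢
    rw [hsame _ hxG]
    exact hGt
  · intro Y hY h0 hxY
    refine FF_max hY ?_
    rw [← ti_sg] at h0
    unfold Ti at h0 ⊢
    rw [← hsame Y hxY]
    exact h0

/-- Note 2486: one class inside `Z`. -/
theorem dp (hE : Env r E f) (hQ : ∀ A A', Stp r E f A A' → Q A → Q A') (hZ : Z ⊆ E)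
    (hZc : Z.card = f + 1) (ha : a ∈ E) (ha' : a' ∈ E) (hne : a ≠ a') (haZ : a ∉ Z) (haZ' : a' ∉ Z)
    (hp : r {a, a'} = 1) (hF : FF r r E Z ⊆ {a, a'}) (hb : Gd r E f b) (hbZ : b ⊆ Z)
    (hb' : Gd r E f b') (hbZ' : b' ⊆ Z) (hq : Q b) : Q b' := by
  classical
  by_contra hq'
  have hr := hE.rk
  have hZok : Ok r r E Z := ok_sub (gd_ok hE hb) hbZ
  have hone : ∀ y ∈ E, 1 ≤ r {y} := by
    intro y hy
    have h1 := hE.three {y} (singleton_subset_iff.2 hy)
    rw [card_singleton] at h1
    omega
  have hpar : r (insert a' {a}) = r {a} := by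
    have h1 : (insert a' {a} : Finset α) = {a, a'} := pair_comm a' a
    have h2 := hone a ha
    have h3 := hr.mono {a} {a, a'} (by simp)
    rw [h1]
    omega
  have hpar' : r (insert a {a'}) = r {a'} := by
    have h2 := hone a' ha'
    have h3 := hr.mono {a'} {a, a'} (by simp)
    omega
  -- the elements
  have hex : ∀ b : Finset α, Gd r E f b → b ⊆ Z → ∃ x ∈ Z, b = Z.erase x := by
    intro b hb hbZ
    obtain ⟨x, hx⟩ := card_eq_one.1 (by
      rw [card_sdiff_of_subset hbZ, hZc, hb.2.1.1]
      omega : (Z \ b).card = 1)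
    have h : x ∈ Z \ b := by
      rw [hx]
      exact mem_singleton_self x
    rw [mem_sdiff] at h
    refine ⟨x, h.1, eq_of_subset_of_card_le ?_ ?_⟩
    · refine subset_erase.2 ⟨hbZ, h.2⟩
    · rw [card_erase_of_mem h.1, hZc, hb.2.1.1]
      omega
  have hrZ : r Z = f := by
    have h1 := hr.mono _ _ hbZ
    have h2 := hr.mono _ _ hZ
    rw [hb.2.1.2] at h1
    rw [hE.rank] at h2
    omega
  have hFZ : ∀ y ∈ Z, y ∉ FF r r E Z := by
    intro y hy h1
    have h2 := hF h1
    rw [mem_insert, mem_singleton] at h2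
    rcases h2 with rfl | rfl
    · exact haZ hy
    · exact haZ' hy
  have hins : ∀ x ∈ Z, insert x (Z.erase x) = Z := fun x hx => insert_erase hx
  have hswap : ∀ x ∈ Z, ∀ y, y ≠ x → insert x ((Z.erase x).erase y) = Z.erase y := by
    intro x hx y hyx
    rw [erase_right_comm, insert_erase (mem_erase.2 ⟨hyx.symm, hx⟩)]
  -- every element of the circuit is a token
  set C : Finset α := Z.filter fun c => r (Z.erase c) = r Z with hC
  have hCZ : C ⊆ Z := filter_subset _ _
  have htok : ∀ c ∈ C, Gd r E f (Z.erase c) := by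
    intro c hc
    obtain ⟨x, hx, rfl⟩ := hex b hb hbZ
    by_cases hcx : c = x
    · rw [hcx]
      exact hb
    · have hxE : x ∈ E \ Z.erase x := mem_sdiff.2 ⟨hZ hx, fun h => (mem_erase.1 h).1 rfl⟩
      have h1 := tg_ff hE hb hxE
      rw [hins x hx] at h1
      have h2 := tok_gd (h := c) hE hb hxE h1 (mem_erase.2 ⟨hcx, hCZ hc⟩) (hFZ c (hCZ hc)) (by
        rw [hswap x hx c hcx, (mem_filter.1 hc).2, hrZ])
      rwa [hswap x hx c hcx] at h2
  set K₁ : Finset α := C.filter fun c => Q (Z.erase c) with hK₁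
  set K₂ : Finset α := C.filter fun c => ¬ Q (Z.erase c) with hK₂
  have hKC : K₁ ∪ K₂ = C := filter_union_filter_not_eq _ C
  have hdj : Disjoint K₁ K₂ := disjoint_filter_filter_not C C _
  have hmC : ∀ x ∈ Z, Gd r E f (Z.erase x) → x ∈ C := by
    intro x hx h1
    refine mem_filter.2 ⟨hx, ?_⟩
    rw [h1.2.1.2, hrZ]
  have hn1 : K₁.Nonempty := by
    obtain ⟨x, hx, rfl⟩ := hex b hb hbZ
    exact ⟨x, mem_filter.2 ⟨hmC x hx hb, hq⟩⟩
  have hn2 : K₂.Nonempty := by
    obtain ⟨x, hx, rfl⟩ := hex b' hb' hbZ'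
    exact ⟨x, mem_filter.2 ⟨hmC x hx hb', hq'⟩⟩
  have hK₁C : K₁ ⊆ C := filter_subset _ _
  have hK₂C : K₂ ⊆ C := filter_subset _ _
  have hZr : Z.card = r Z + 1 := by rw [hZc, hrZ]
  have hcc := circ_card hr hZr
  rw [← hC] at hcc
  have hci : ∀ D ⊆ C, D ≠ C → r D = D.card := by
    intro D hD hDne
    by_contra hcon
    exact hDne (circ_of_dep hr hZr hD hcon)
  have hK₁ne : K₁ ≠ C := by
    intro h1
    obtain ⟨x, hx⟩ := hn2
    exact disjoint_left.1 hdj (h1 ▸ hK₂C hx) hx
  have hK₂ne : K₂ ≠ C := by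
    intro h1
    obtain ⟨x, hx⟩ := hn1
    exact disjoint_left.1 hdj hx (h1 ▸ hK₁C hx)
  have haC : a ∉ C := fun h => haZ (hCZ h)
  have hZTG : ∀ k ∈ C, TG r E (Z.erase k) k (FF r r E Z) := by
    intro k hk
    have hkE : k ∈ E \ Z.erase k := mem_sdiff.2 ⟨hZ (hCZ hk), fun h => (mem_erase.1 h).1 rfl⟩
    have h1 := tg_ff hE (htok k hk) hkE
    rwa [hins k (hCZ hk)] at h1
  -- consequences of (T*)
  have hcA : ∀ K : Finset α, K ⊆ C → (∀ k ∈ K, ∀ y, y ∈ K.erase k ↔ y ∈ Z.erase k ∧ y ∉ FF r r E Z ∧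
      r (insert k ((Z.erase k).erase y)) = f ∧
      (Q (Z.erase k) ↔ Q (insert k ((Z.erase k).erase y)))) →
      ∀ k ∈ K, r (insert k (insert a (K.erase k))) = r (insert a (K.erase k)) := by
    intro K hKC' hK k hk
    have hkE : k ∈ E \ Z.erase k := mem_sdiff.2 ⟨hZ (hCZ (hKC' hk)), fun h => (mem_erase.1 h).1 rfl⟩
    have h1 := tst hE hQ (htok k (hKC' hk)) hkE (hZTG k (hKC' hk)) (hK k hk)
    have h2 : FF r r E Z ∪ K.erase k ⊆ insert a' (insert a (K.erase k)) := by
      intro z hz
      rcases mem_union.1 hz with hz | hz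
      · have h3 := hF hz
        rw [mem_insert, mem_singleton] at h3
        rcases h3 with rfl | rfl
        · exact mem_insert_of_mem (mem_insert_self _ _)
        · exact mem_insert_self _ _
      · exact mem_insert_of_mem (mem_insert_of_mem hz)
    have h3 := hr.mono_insert h1 h2
    have h4 : r (insert a' (insert a (K.erase k))) = r (insert a (K.erase k)) :=
      hr.mono_insert hpar (by simp)
    have h5 := hr.mono (insert a (K.erase k)) (insert k (insert a (K.erase k))) (subset_insert _ _)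
    have h6 := hr.mono (insert k (insert a (K.erase k)))
      (insert k (insert a' (insert a (K.erase k)))) (insert_subset_insert k (subset_insert _ _))
    omega
  have hc1 : ∀ k ∈ K₁, r (insert k (insert a (K₁.erase k))) = r (insert a (K₁.erase k)) := by
    refine hcA K₁ hK₁C ?_
    intro k hk y
    have hkZ := hCZ (hK₁C hk)
    have hkQ := (mem_filter.1 hk).2
    rw [mem_erase, mem_erase]
    constructor
    · rintro ⟨h1, h2⟩
      have h3 := mem_filter.1 h2
      have h4 := mem_filter.1 h3.1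
      rw [hswap k hkZ y h1]
      exact ⟨⟨h1, h4.1⟩, hFZ y h4.1, by rw [h4.2, hrZ], by tauto⟩
    · rintro ⟨⟨h1, h2⟩, h3, h4, h5⟩
      rw [hswap k hkZ y h1] at h4 h5
      exact ⟨h1, mem_filter.2 ⟨mem_filter.2 ⟨h2, by rw [h4, hrZ]⟩, h5.1 hkQ⟩⟩
  have hc2 : ∀ k ∈ K₂, r (insert k (insert a (K₂.erase k))) = r (insert a (K₂.erase k)) := by
    refine hcA K₂ hK₂C ?_
    intro k hk y
    have hkZ := hCZ (hK₂C hk)
    have hkQ := (mem_filter.1 hk).2
    rw [mem_erase, mem_erase]
    constructor
    · rintro ⟨h1, h2⟩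
      have h3 := mem_filter.1 h2
      have h4 := mem_filter.1 h3.1
      rw [hswap k hkZ y h1]
      exact ⟨⟨h1, h4.1⟩, hFZ y h4.1, by rw [h4.2, hrZ], by tauto⟩
    · rintro ⟨⟨h1, h2⟩, h3, h4, h5⟩
      rw [hswap k hkZ y h1] at h4 h5
      exact ⟨h1, mem_filter.2 ⟨mem_filter.2 ⟨h2, by rw [h4, hrZ]⟩, by tauto⟩⟩
  have hsA : ∀ K : Finset α, K.Nonempty → r K = K.card →
      (∀ k ∈ K, r (insert k (insert a (K.erase k))) = r (insert a (K.erase k))) →
      r (insert a K) = r K ∧ ∀ k ∈ K, r (insert a (K.erase k)) ≠ r (K.erase k) := by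
    intro K hKn hKr hKc
    have h0 : ∀ k ∈ K, insert k (insert a (K.erase k)) = insert a K := by
      intro k hk
      rw [insert_comm, insert_erase hk]
    have h1 : r (insert a K) = r K := by
      obtain ⟨k, hk⟩ := hKn
      have h2 := hKc k hk
      rw [h0 k hk] at h2
      have h3 := hr.insert_le a (K.erase k)
      have h4 := rk_le_union_card hr ∅ (K.erase k)
      rw [empty_union, hr.empty, card_erase_of_mem hk] at h4
      have h5 := hr.mono K (insert a K) (subset_insert _ _)
      have h6 : 0 < K.card := card_pos.2 ⟨k, hk⟩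
      omega
    refine ⟨h1, fun k hk h2 => ?_⟩
    have h3 := hKc k hk
    rw [h0 k hk] at h3
    have h4 := rk_le_union_card hr ∅ (K.erase k)
    rw [empty_union, hr.empty, card_erase_of_mem hk] at h4
    have h6 : 0 < K.card := card_pos.2 ⟨k, hk⟩
    omega
  obtain ⟨hs1, he1⟩ := hsA K₁ hn1 (hci K₁ hK₁C hK₁ne) hc1
  obtain ⟨hs2, he2⟩ := hsA K₂ hn2 (hci K₂ hK₂C hK₂ne) hc2
  have hTC : TwoC r K₁ K₂ a := {
    dj := hdj
    a1 := fun h => haC (hK₁C h)
    a2 := fun h => haC (hK₂C h)
    n1 := hn1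
    n2 := hn2
    s1 := hs1
    s2 := hs2
    c1 := hc1
    c2 := hc2
    e1 := he1
    e2 := he2
    cc := by rw [hKC]; exact hcc.symm
    ci := by rw [hKC]; exact hci }
  -- the blocks
  set W : Finset α := insert a Z with hW
  have hWe : ∀ x ∈ C, W.erase x = insert a (Z.erase x) := by
    intro x hx
    rw [hW, erase_insert_of_ne]
    rintro rfl
    exact haC hx
  let P : α → Finset α := fun x => FF r r E (W.erase x)
  let N : α → Finset α := fun x => (Z.erase x).filter fun y => y ∉ P x ∧
    r (insert a ((Z.erase x).erase y)) = f ∧ (Q (Z.erase x) ↔ Q (insert a ((Z.erase x).erase y)))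
  have haE : ∀ x ∈ C, a ∈ E \ Z.erase x := fun x _ =>
    mem_sdiff.2 ⟨ha, fun h => haZ (mem_erase.1 h).2⟩
  have hPTG : ∀ x ∈ C, TG r E (Z.erase x) a (P x) := by
    intro x hx
    have h1 := tg_ff hE (htok x hx) (haE x hx)
    rwa [← hWe x hx] at h1
  have hCW : C ⊆ W := hCZ.trans (subset_insert a Z)
  have hWok : Ok r r E W := ok_sub hZok (subset_insert a Z)
  have hWxok : ∀ x ∈ C, Ok r r E (W.erase x) := by
    intro x hx
    rw [hWe x hx]
    exact ok_sub (gd_ok hE (htok x hx)) (subset_insert _ _)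
  have hWti : ∀ X ⊆ E, Ti r r W X → X = ∅ := by
    intro X hX hXt
    by_contra hXne
    have haX : a ∉ X := by
      intro haX
      have h1 := hZok X hX
      have h2 := card_er (X := X) (W := W) (mem_insert_self a Z)
      rw [erase_insert haZ, if_pos haX] at h2
      unfold Ti at hXt
      omega
    have h2 := card_er (X := X) (W := W) (mem_insert_self a Z)
    rw [erase_insert haZ, if_neg haX] at h2
    have h3 : X ⊆ FF r r E Z := FF_max hX (by unfold Ti at hXt ⊢; omega)
    have h4 : X ⊆ {a'} := by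
      intro z hz
      have h5 := hF (h3 hz)
      rw [mem_insert] at h5
      rcases h5 with rfl | h5
      · exact absurd hz haX
      · exact h5
    rcases subset_singleton_iff.1 h4 with h5 | h5
    · exact hXne h5
    · have h6 := hone a' ha'
      unfold Ti at hXt
      rw [h5] at hXt
      have h7 := card_le_card (sdiff_subset : ({a'} : Finset α) \ W ⊆ {a'})
      rw [card_singleton] at h7
      omega
  have hPE : ∀ x, P x ⊆ E := fun x => FF_sub
  have hPt : ∀ x ∈ C, Ti r r (W.erase x) (P x) := fun x hx => FF_ti hr hr (hWxok x hx)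
  have hself : ∀ x ∈ C, P x ≠ ∅ → x ∈ P x := by
    intro x hx hne
    by_contra hn
    refine hne (hWti (P x) (hPE x) ?_)
    have h1 := hPt x hx
    unfold Ti at h1 ⊢
    rw [card_er (hCW hx), if_neg hn, add_zero] at h1
    exact h1
  have hPS : ∀ x ∈ C, P x ≠ ∅ → (P x \ W).card + 1 = 2 * r (P x) := by
    intro x hx hne
    have h1 := hPt x hx
    unfold Ti at h1
    rw [card_er (hCW hx), if_pos (hself x hx hne)] at h1
    omega
  have hle : ∀ x ∈ C, ∀ y ∈ C, y ∈ P x → P x ⊆ P y := by
    intro x hx y hy hyP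
    refine FF_max (hPE x) ?_
    unfold Ti
    rw [card_er (hCW hy), if_pos hyP]
    have := hPS x hx (ne_empty_of_mem hyP)
    omega
  have heqv : ∀ x ∈ C, ∀ y ∈ C, y ∈ P x → P y = P x := by
    intro x hx y hy hyP
    have h1 := hle x hx y hy hyP
    exact Subset.antisymm (hle y hy x hx (h1 (hself x hx (ne_empty_of_mem hyP)))) h1
  have hdsj : ∀ x ∈ C, ∀ y ∈ C, P x ≠ P y → Disjoint (P x) (P y) := by
    intro x hx y hy hxy
    rcases eq_or_ne (P x) ∅ with h0 | h0
    · rw [h0]; exact disjoint_empty_left _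
    rcases eq_or_ne (P y) ∅ with h0' | h0'
    · rw [h0']; exact disjoint_empty_right _
    have hsub := ti_cup (X := P x) (X' := P y) (S := W) hr hr
    have h3 := hPS x hx h0
    have h4 := hPS y hy h0'
    have hUE := union_subset (hPE x) (hPE y)
    have h5 : ((P x ∪ P y) \ W).card + 2 ≤ r (P x ∪ P y) + r (P x ∪ P y) := by
      by_contra hlt
      rw [not_le] at hlt
      have h6 := hWxok x hx (P x ∪ P y) hUE
      have hxU : x ∈ P x ∪ P y := mem_union_left _ (hself x hx h0)
      rw [card_er (hCW hx), if_pos hxU] at h6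
      have h7 : P x ∪ P y ⊆ P x := by
        refine FF_max hUE ?_
        unfold Ti
        rw [card_er (hCW hx), if_pos hxU]
        omega
      exact hxy (heqv x hx y hy (h7 (mem_union_right _ (hself y hy h0')))).symm
    have hI1 := hWok (P x ∩ P y) (inter_subset_left.trans (hPE x))
    rw [disjoint_iff_inter_eq_empty]
    refine hWti _ (inter_subset_left.trans (hPE x)) ?_
    unfold Ti
    omega
  have hBl : Blk r K₁ K₂ a P N := {
    aP := by
      rw [hKC]
      intro x hx
      exact (hPTG x hx).nx hE (htok x hx) (haE x hx)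
    NP := by
      intro x _ y hy
      exact (mem_filter.1 hy).2.1
    sp := by
      rw [hKC]
      intro x hx
      exact tst hE hQ (htok x hx) (haE x hx) (hPTG x hx) fun y => mem_filter
    N1 := by
      intro x hx y hy
      have hy' := mem_filter.1 hy
      by_contra hyK
      have h1 : K₂ ⊆ (Z.erase x).erase y := by
        intro z hz
        refine mem_erase.2 ⟨fun e => hyK (e ▸ hz), mem_erase.2 ⟨?_, hCZ (hK₂C hz)⟩⟩
        rintro rfl
        exact disjoint_left.1 hdj hx hz
      have h2 := hr.mono_insert hs2 h1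
      have h3 := rk_le_union_card hr ∅ ((Z.erase x).erase y)
      rw [empty_union, hr.empty, card_erase_of_mem hy'.1, card_erase_of_mem (hCZ (hK₁C hx)), hZc] at h3
      have h4 : 0 < (Z.erase x).card := card_pos.2 ⟨y, hy'.1⟩
      rw [card_erase_of_mem (hCZ (hK₁C hx)), hZc] at h4
      have h5 := hy'.2.2.1
      omega
    N2 := by
      intro x hx y hy
      have hy' := mem_filter.1 hy
      by_contra hyK
      have h1 : K₁ ⊆ (Z.erase x).erase y := by
        intro z hz
        refine mem_erase.2 ⟨fun e => hyK (e ▸ hz), mem_erase.2 ⟨?_, hCZ (hK₁C hz)⟩⟩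
        rintro rfl
        exact disjoint_left.1 hdj hz hx
      have h2 := hr.mono_insert hs1 h1
      have h3 := rk_le_union_card hr ∅ ((Z.erase x).erase y)
      rw [empty_union, hr.empty, card_erase_of_mem hy'.1, card_erase_of_mem (hCZ (hK₂C hx)), hZc] at h3
      have h4 : 0 < (Z.erase x).card := card_pos.2 ⟨y, hy'.1⟩
      rw [card_erase_of_mem (hCZ (hK₂C hx)), hZc] at h4
      have h5 := hy'.2.2.1
      omega
    no := by
      intro g hg k hk h1 h2
      have h3 := (mem_filter.1 h1).2.2.2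
      have h4 := (mem_filter.1 h2).2.2.2
      rw [erase_right_comm] at h4
      have h5 := (mem_filter.1 hg).2
      have h6 := (mem_filter.1 hk).2
      tauto
    self := by rw [hKC]; exact hself
    eqv := by rw [hKC]; exact heqv
    dsj := by rw [hKC]; exact hdsj
    cnt := by
      rw [hKC]
      intro s hs
      have haT : ∀ T ∈ s, a ∉ T ∧ a' ∉ T := by
        intro T hT
        obtain ⟨x, hx, rfl, hne'⟩ := hs T hT
        have h1 := (hPTG x hx).nx hE (htok x hx) (haE x hx)
        refine ⟨(hPTG x hx).nin, fun h2 => h1 ?_⟩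
        exact hr.mono_insert hpar' (singleton_subset_iff.2 h2)
      have hsup : ∀ z, z ∈ s.sup id → ∃ T ∈ s, z ∈ T := by
        intro z hz
        obtain ⟨T, hT, h1⟩ := mem_sup.1 hz
        exact ⟨T, hT, h1⟩
      have hVa : a ∉ s.sup id := by
        intro h
        obtain ⟨T, hT, h1⟩ := hsup a h
        exact (haT T hT).1 h1
      have hVa' : a' ∉ s.sup id := by
        intro h
        obtain ⟨T, hT, h1⟩ := hsup a' h
        exact (haT T hT).2 h1
      have hVE : s.sup id ⊆ E := by
        intro z hz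
        obtain ⟨T, hT, h1⟩ := hsup z hz
        obtain ⟨x, hx, rfl, -⟩ := hs T hT
        exact hPE x h1
      set X : Finset α := insert a' (insert a (s.sup id)) with hX
      have hXE : X ⊆ E := insert_subset ha' (insert_subset ha hVE)
      have h1 := hZok X hXE
      have h2 : r X = r (insert a (s.sup id)) := hr.mono_insert hpar (by simp)
      have h3 : X \ Z = insert a' (insert a (s.sup id \ Z)) := by
        rw [hX, insert_sdiff_of_notMem _ haZ', insert_sdiff_of_notMem _ haZ]
      have h4 : (X \ Z).card = (s.sup id \ Z).card + 2 := by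
        rw [h3, card_insert_of_notMem, card_insert_of_notMem]
        · exact fun h => hVa (mem_sdiff.1 h).1
        · rw [mem_insert]
          rintro (h | h)
          · exact hne h.symm
          · exact hVa' (mem_sdiff.1 h).1
      have h5 := card_dsj (E \ Z) s (by
        intro T hT T' hT' hne'
        obtain ⟨x, hx, rfl, -⟩ := hs T hT
        obtain ⟨y, hy, rfl, -⟩ := hs T' hT'
        exact hdsj x hx y hy hne')
      have hES : ∀ V ⊆ E, (E \ Z) ∩ V = V \ Z := by
        intro V hV
        ext z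
        rw [mem_inter, mem_sdiff, mem_sdiff]
        constructor
        · rintro ⟨⟨_, h6⟩, h7⟩
          exact ⟨h7, h6⟩
        · rintro ⟨h6, h7⟩
          exact ⟨⟨hV h6, h7⟩, h6⟩
      rw [hES _ hVE] at h5
      have h6 : ∀ T ∈ s, (((E \ Z) ∩ T).card : ℤ) = 2 * (r T : ℤ) - 1 := by
        intro T hT
        obtain ⟨x, hx, hxT, hne'⟩ := hs T hT
        have h7 := hPS x hx hne'
        have h8 := card_er (X := T) (W := W) (mem_insert_self a Z)
        rw [erase_insert haZ, if_neg (haT T hT).1, add_zero] at h8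
        rw [hES T (hxT ▸ hPE x), h8]
        rw [hxT] at h7
        omega
      rw [sum_congr rfl h6] at h5
      omega }
  exact core hr hTC hBl

end Pool.Agent.DP91
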